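import Pool.Agent.Y998.LQ.Defs4
import Pool.Agent.TH268.PD.Core

/-! Job LR-SHORT2: few sample points in the cycle of `v` is unlikely (adaptation of LQ-SHORT by
helper804). -/

set_option autoImplicit false

namespace Pool.Agent.Y220.LR

open Finset Equiv

section gen

variable {V : Type} [Fintype V] [DecidableEq V]

/-- number of the functions with a value in a given set -/
theorem card_val {k n : ℕ} (j : Fin k) (A : Finset (Fin n)) :
    n * (univ.filter fun s : Fin k → Fin n => s j ∈ A).card = A.card * n ^ k := by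
  classical
  have h1 : (univ.filter fun s : Fin k → Fin n => s j ∈ A) =
      Fintype.piFinset fun i : Fin k => if i = j then A else (univ : Finset (Fin n)) := by
    ext s
    rw [Finset.mem_filter, Fintype.mem_piFinset]
    constructor
    · rintro ⟨_, h⟩ i
      split_ifs with hi
      · rw [hi]
        exact h
      · exact Finset.mem_univ _
    · intro h
      refine ⟨Finset.mem_univ _, ?_⟩
      have := h j
      rwa [if_pos rfl] at this
  have h2 : ∏ i : Fin k, n = n ^ k := by
    rw [Finset.prod_const, Finset.card_univ, Fintype.card_fin]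
  rw [h1, Fintype.card_piFinset, ← h2, ← Finset.mul_prod_erase _ _ (Finset.mem_univ j),
    ← Finset.mul_prod_erase (univ : Finset (Fin k)) (fun _ => n) (Finset.mem_univ j), if_pos rfl]
  have h3 : ∏ i ∈ univ.erase j, (if i = j then A else (univ : Finset (Fin n))).card =
      ∏ i ∈ (univ : Finset (Fin k)).erase j, n := by
    refine Finset.prod_congr rfl fun i hi => ?_
    rw [if_neg (Finset.ne_of_mem_erase hi), Finset.card_univ, Fintype.card_fin]
  rw [h3]
  ring

/-- the points -/
def bb {k n : ℕ} (v : V) (e : Fin k × Fin n → V) (s : Fin k → Fin n) : Fin (k + 1) → V :=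
  Fin.cons v fun j => e (j, s j)

theorem bb_inj {k n : ℕ} (v : V) (e : Fin k × Fin n → V) (he : Function.Injective e)
    (hv : ∀ p, e p ≠ v) (s : Fin k → Fin n) : Function.Injective (bb v e s) := by
  rw [bb, Fin.cons_injective_iff]
  constructor
  · rintro ⟨j, hj⟩
    exact hv _ hj
  · intro i j h
    exact (Prod.ext_iff.1 (he h)).1

/-- short cycles avoid most of the choices of the points -/
theorem count {k n K : ℕ} (hK : 2 * K ≤ n) (v : V) (e : Fin k × Fin n → V) (g : Perm V)
    (hg : Nat.card {p : Fin k × Fin n // g.SameCycle v (e p)} ≤ K) :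
    (n : ℝ) ^ k / 2 * n ≤
      n * (univ.filter fun s : Fin k → Fin n => ∀ j, ¬ g.SameCycle v (e (j, s j))).card := by
  classical
  obtain ⟨A, hA⟩ : ∃ A : Fin k → Finset (Fin n), ∀ j a, a ∈ A j ↔ g.SameCycle v (e (j, a)) :=
    ⟨fun j => univ.filter fun a => g.SameCycle v (e (j, a)), fun j a => by simp⟩
  have h1 : ∑ j, (A j).card ≤ K := by
    refine le_trans ?_ hg
    rw [Nat.card_eq_fintype_card, ← Finset.card_sigma]
    rw [← Fintype.card_coe]
    refine Fintype.card_le_of_injective
      (fun p => (⟨(p.1.1, p.1.2), (hA _ _).1 (Finset.mem_sigma.1 p.2).2⟩ :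
        {p : Fin k × Fin n // g.SameCycle v (e p)})) ?_
    rintro ⟨⟨i, a⟩, h⟩ ⟨⟨j, b⟩, h'⟩ hab
    have h2 := Subtype.ext_iff.1 hab
    simp only [Prod.mk.injEq] at h2
    obtain ⟨rfl, rfl⟩ := h2
    rfl
  have h2 : (univ : Finset (Fin k → Fin n)) ⊆
      (univ.filter fun s : Fin k → Fin n => ∀ j, ¬ g.SameCycle v (e (j, s j))) ∪
        univ.biUnion fun j : Fin k => univ.filter fun s : Fin k → Fin n => s j ∈ A j := by
    intro s _
    rw [Finset.mem_union]
    by_cases h : ∀ j, ¬ g.SameCycle v (e (j, s j))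
    · exact Or.inl (Finset.mem_filter.2 ⟨Finset.mem_univ _, h⟩)
    · push Not at h
      obtain ⟨j, hj⟩ := h
      refine Or.inr (Finset.mem_biUnion.2 ⟨j, Finset.mem_univ _, Finset.mem_filter.2
        ⟨Finset.mem_univ _, (hA _ _).2 hj⟩⟩)
  have h3 := (Finset.card_le_card h2).trans ((Finset.card_union_le _ _).trans
    (Nat.add_le_add_left Finset.card_biUnion_le _))
  rw [Finset.card_univ, Fintype.card_fun, Fintype.card_fin, Fintype.card_fin] at h3
  have h4 := Nat.mul_le_mul_left n h3
  rw [mul_add, Finset.mul_sum, Finset.sum_congr rfl fun j _ => card_val j (A j),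
    ← Finset.sum_mul] at h4
  have h5 : n * n ^ k ≤ n * (univ.filter fun s : Fin k → Fin n =>
      ∀ j, ¬ g.SameCycle v (e (j, s j))).card + K * n ^ k :=
    h4.trans (Nat.add_le_add_left (Nat.mul_le_mul_right _ h1) _)
  have h6 : (n : ℝ) * (n : ℝ) ^ k ≤ n * (univ.filter fun s : Fin k → Fin n =>
      ∀ j, ¬ g.SameCycle v (e (j, s j))).card + K * (n : ℝ) ^ k := by exact_mod_cast h5
  have h7 : (2 : ℝ) * K ≤ n := by exact_mod_cast hK
  have h8 : (0 : ℝ) ≤ (n : ℝ) ^ k := by positivity
  nlinarith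

theorem gen (μ : Perm V → ℝ) (hμ : ∀ g, 0 ≤ μ g) (hμ1 : ∑ g, μ g = 1) (v : V) (K n k : ℕ)
    (hK : 2 * K ≤ n) (hn : 0 < n) (e : Fin k × Fin n → V) (he : Function.Injective e)
    (hv : ∀ p, e p ≠ v) (η : ℝ) (hη0 : 0 ≤ η)
    (hη : ∀ p, ∑ g, |μ ((swap v (e p))⁻¹ * g) - μ g| ≤ η)
    (R : (Fin (k + 1) → V) → Perm V → Perm (Fin (k + 1)))
    (hR1 : ∀ b, Function.Injective b → ∀ (g : Perm V) (i j : Fin (k + 1)),
      R b (swap (b i) (b j) * g) = swap i j * R b g)
    (hR2 : ∀ b, Function.Injective b → ∀ (g : Perm V) (i j : Fin (k + 1)),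
      (R b g).SameCycle i j ↔ g.SameCycle (b i) (b j)) :
    ∑ g, μ g * (if Nat.card {p : Fin k × Fin n // g.SameCycle v (e p)} ≤ K then 1 else 0) ≤
      2 * (1 / ((k : ℝ) + 1) + η) := by
  classical
  have hk1 : (0 : ℝ) < (k : ℝ) + 1 := by positivity
  have hnR : (0 : ℝ) < n := by exact_mod_cast hn
  -- one choice of the points
  have hQ : ∀ s : Fin k → Fin n, ∑ g, μ g * (if R (bb v e s) g 0 = 0 then (1 : ℝ) else 0) ≤
      1 / ((k : ℝ) + 1) + η := by
    intro s
    have hb := bb_inj v e he hv s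
    obtain ⟨Q, hQd⟩ : ∃ Q : Fin (k + 1) → ℝ, ∀ j, Q j =
        ∑ g, μ g * (if R (bb v e s) g 0 = j then (1 : ℝ) else 0) := ⟨_, fun _ => rfl⟩
    have hsum : ∑ j, Q j = 1 := by
      rw [Finset.sum_congr rfl fun j _ => hQd j, Finset.sum_comm]
      refine Eq.trans (Finset.sum_congr rfl fun g _ => ?_) hμ1
      rw [← Finset.mul_sum, Finset.sum_ite_eq, if_pos (Finset.mem_univ _), mul_one]
    have hle : ∀ j, Q 0 ≤ Q j + η := by
      intro j
      refine Fin.cases (by linarith) (fun j => ?_) j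
      have h1 : Q j.succ = ∑ g, μ (swap v (e (j, s j)) * g) *
          (if R (bb v e s) g 0 = 0 then (1 : ℝ) else 0) := by
        rw [hQd, ← Equiv.sum_comp (Equiv.mulLeft (swap v (e (j, s j))))]
        refine Finset.sum_congr rfl fun g _ => ?_
        rw [Equiv.coe_mulLeft]
        congr 1
        have h2 : R (bb v e s) (swap v (e (j, s j)) * g) = swap 0 j.succ * R (bb v e s) g :=
          hR1 (bb v e s) hb g 0 j.succ
        rw [h2, Perm.mul_apply]
        have h3 : swap (0 : Fin (k + 1)) j.succ (R (bb v e s) g 0) = j.succ ↔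
            R (bb v e s) g 0 = 0 := by
          rw [Equiv.swap_apply_eq_iff, Equiv.swap_apply_right]
        simp only [h3]
      have h4 : Q 0 - Q j.succ ≤ ∑ g, |μ ((swap v (e (j, s j)))⁻¹ * g) - μ g| := by
        rw [h1, hQd, ← Finset.sum_sub_distrib]
        refine Finset.sum_le_sum fun g _ => ?_
        rw [Equiv.swap_inv, ← sub_mul]
        split_ifs
        · rw [mul_one, abs_sub_comm]
          exact le_abs_self _
        · rw [mul_zero]
          exact abs_nonneg _
      have h5 := hη (j, s j)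
      linarith
    have h6 : ((k : ℝ) + 1) * Q 0 ≤ 1 + ((k : ℝ) + 1) * η := by
      have h7 : ∑ _j : Fin (k + 1), Q 0 ≤ ∑ j, (Q j + η) := Finset.sum_le_sum fun j _ => hle j
      rw [Finset.sum_add_distrib, hsum, Finset.sum_const, Finset.sum_const, Finset.card_univ,
        Fintype.card_fin, nsmul_eq_mul, nsmul_eq_mul] at h7
      push_cast at h7
      exact h7
    rw [← hQd 0]
    have h8 : Q 0 ≤ (1 + ((k : ℝ) + 1) * η) / ((k : ℝ) + 1) := by
      rw [le_div_iff₀ hk1]
      linarith
    refine h8.trans (le_of_eq ?_)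
    field_simp
  -- short cycles give many good choices
  have hcount : ∀ g : Perm V, Nat.card {p : Fin k × Fin n // g.SameCycle v (e p)} ≤ K →
      (n : ℝ) ^ k / 2 ≤ ∑ s : Fin k → Fin n, (if R (bb v e s) g 0 = 0 then (1 : ℝ) else 0) := by
    intro g hg
    have h1 := count hK v e g hg
    rw [mul_comm] at h1
    have h2 := le_of_mul_le_mul_left h1 hnR
    refine h2.trans ?_
    rw [Finset.sum_boole]
    refine Nat.cast_le.2 (Finset.card_le_card fun s hs => ?_)
    rw [Finset.mem_filter] at hs ⊢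
    refine ⟨Finset.mem_univ _, ?_⟩
    by_contra hne
    have hb := bb_inj v e he hv s
    obtain ⟨j, hj⟩ := Fin.exists_succ_eq.2 hne
    have h3 : (R (bb v e s) g).SameCycle 0 j.succ := by
      rw [hj]
      exact ⟨1, by rw [zpow_one]⟩
    have h4 := (hR2 (bb v e s) hb g 0 j.succ).1 h3
    exact hs.2 j h4
  have hfin : (∑ g, μ g * (if Nat.card {p : Fin k × Fin n // g.SameCycle v (e p)} ≤ K then 1 else 0)) *
      ((n : ℝ) ^ k / 2) ≤ (n : ℝ) ^ k * (1 / ((k : ℝ) + 1) + η) := by
    calc _ = ∑ g, μ g * ((if Nat.card {p : Fin k × Fin n // g.SameCycle v (e p)} ≤ K then 1 else 0) *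
          ((n : ℝ) ^ k / 2)) := by
          rw [Finset.sum_mul]
          exact Finset.sum_congr rfl fun g _ => mul_assoc _ _ _
      _ ≤ ∑ g, μ g * ∑ s : Fin k → Fin n, (if R (bb v e s) g 0 = 0 then (1 : ℝ) else 0) := by
          refine Finset.sum_le_sum fun g _ => mul_le_mul_of_nonneg_left ?_ (hμ g)
          split_ifs with h
          · rw [one_mul]
            exact hcount g h
          · rw [zero_mul]
            exact Finset.sum_nonneg fun s _ => by split_ifs <;> norm_num
      _ = ∑ s : Fin k → Fin n, ∑ g, μ g * (if R (bb v e s) g 0 = 0 then (1 : ℝ) else 0) := by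
          rw [Finset.sum_comm]
          exact Finset.sum_congr rfl fun g _ => Finset.mul_sum _ _ _
      _ ≤ ∑ _s : Fin k → Fin n, (1 / ((k : ℝ) + 1) + η) := Finset.sum_le_sum fun s _ => hQ s
      _ = _ := by
          rw [Finset.sum_const, Finset.card_univ, Fintype.card_fun, Fintype.card_fin,
            Fintype.card_fin, nsmul_eq_mul]
          push_cast
          rfl
  have hnk : (0 : ℝ) < (n : ℝ) ^ k := by positivity
  refine le_of_mul_le_mul_right ?_ hnk
  linarith

end gen

theorem t_SHORT2 : Pool.Agent.Y998.LQ.S_SHORT2 := by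
  intro V _ _ J t ht hJ v K n k hK hn e he hv η hη0 hη
  unfold Pool.Agent.Y998.ST.stirExp
  exact gen (Pool.Agent.Y998.ST.stirLaw J t) (fun g => Pool.Agent.Y998.ST.law_nonneg hJ ht g)
    (Pool.Agent.Y998.CN.law_sum J t) v K n k hK hn e he hv η hη0 hη
    (fun b g => Pool.Agent.TH268.PD.ret (k + 1) b g)
    (fun b hb g i j => (Pool.Agent.TH268.PD.ret_spec (k + 1) b hb).2.1 g i j)
    (fun b hb g i j => (Pool.Agent.TH268.PD.ret_spec (k + 1) b hb).2.2.2 g i j)

end Pool.Agent.Y220.LR
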